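import Mathlib

/-! # Affine symmetries of APN permutations: counting core -/

namespace Pool.Agent.H42.APN

variable {n : ℕ}

/-- the space `F_2^n` -/
abbrev Vec (n : ℕ) : Type := Fin n → ZMod 2

/-- almost perfect nonlinear, as in the frozen statement -/
def IsAPN (F : Vec n → Vec n) : Prop :=
  ∀ a b : Vec n, a ≠ 0 → (Finset.univ.filter (fun x : Vec n => F (x + a) - F x = b)).card ≤ 2

theorem add_self (x : Vec n) : x + x = 0 := by
  funext i
  show x i + x i = 0
  exact CharTwo.add_self_eq_zero (x i)

theorem sub_eq (x y : Vec n) : x - y = x + y := by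
  rw [sub_eq_iff_eq_add]
  rw [add_assoc, add_self, add_zero]

/-- counting lemma -/
theorem card_le_two_mul {F : Vec n → Vec n} (hF : IsAPN F) {a : Vec n} (ha : a ≠ 0)
    (T S : Finset (Vec n)) (h : ∀ x ∈ T, F (x + a) + F x ∈ S) : T.card ≤ 2 * S.card := by
  classical
  have h1 : T.card ≤ 2 * (T.image (fun x => F (x + a) + F x)).card := by
    refine Finset.card_le_mul_card_image _ 2 fun b _ => ?_
    refine le_trans (Finset.card_le_card ?_) (hF a b ha)
    intro x hx
    rw [Finset.mem_filter] at hx ⊢
    refine ⟨Finset.mem_univ _, ?_⟩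
    rw [sub_eq]
    exact hx.2
  have h2 : (T.image (fun x => F (x + a) + F x)).card ≤ S.card := by
    refine Finset.card_le_card ?_
    intro b hb
    rw [Finset.mem_image] at hb
    obtain ⟨x, hx, rfl⟩ := hb
    exact h x hx
  omega

/-- cardinality of a fibre of a linear map -/
theorem card_fibre (N : Vec n →ₗ[ZMod 2] Vec n) (x₀ b : Vec n) (h : N x₀ = b) :
    (Finset.univ.filter (fun x : Vec n => N x = b)).card =
      2 ^ Module.finrank (ZMod 2) (LinearMap.ker N) := by
  classical
  have h1 : (Finset.univ.filter (fun x : Vec n => N x = b)).card =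
      (Finset.univ.filter (fun x : Vec n => N x = 0)).card := by
    refine Finset.card_nbij' (fun x => x + x₀) (fun x => x + x₀) ?_ ?_ ?_ ?_
    · intro x hx
      simp only [Finset.coe_filter, Finset.mem_univ, true_and, Set.mem_ofPred_eq] at hx ⊢
      rw [map_add, hx, h, add_self]
    · intro x hx
      simp only [Finset.coe_filter, Finset.mem_univ, true_and, Set.mem_ofPred_eq] at hx ⊢
      rw [map_add, hx, h, zero_add]
    · intro x _
      simp only
      rw [add_assoc, add_self, add_zero]
    · intro x _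
      simp only
      rw [add_assoc, add_self, add_zero]
  rw [h1]
  have h2 := Module.card_eq_pow_finrank (K := ZMod 2) (V := LinearMap.ker N)
  rw [ZMod.card] at h2
  rw [← h2]
  symm
  refine Fintype.card_of_subtype _ ?_
  intro x
  simp

/-- cardinality of a coset of the range -/
theorem card_range (N : Vec n →ₗ[ZMod 2] Vec n) (c : Vec n) :
    (Finset.univ.filter (fun y : Vec n => ∃ x, N x + c = y)).card =
      2 ^ Module.finrank (ZMod 2) (LinearMap.range N) := by
  classical
  have h1 : (Finset.univ.filter (fun y : Vec n => ∃ x, N x + c = y)).card =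
      (Finset.univ.filter (fun y : Vec n => ∃ x, N x = y)).card := by
    refine Finset.card_nbij' (fun x => x + c) (fun x => x + c) ?_ ?_ ?_ ?_
    · intro y hy
      simp only [Finset.coe_filter, Finset.mem_univ, true_and, Set.mem_ofPred_eq] at hy ⊢
      obtain ⟨x, rfl⟩ := hy
      exact ⟨x, by rw [add_assoc, add_self, add_zero]⟩
    · intro y hy
      simp only [Finset.coe_filter, Finset.mem_univ, true_and, Set.mem_ofPred_eq] at hy ⊢
      obtain ⟨x, rfl⟩ := hy
      exact ⟨x, rfl⟩
    · intro x _
      simp only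
      rw [add_assoc, add_self, add_zero]
    · intro x _
      simp only
      rw [add_assoc, add_self, add_zero]
  rw [h1]
  have h2 := Module.card_eq_pow_finrank (K := ZMod 2) (V := LinearMap.range N)
  rw [ZMod.card] at h2
  rw [← h2]
  symm
  refine Fintype.card_of_subtype _ ?_
  intro x
  simp

/-- an involution in terms of its linear part -/
structure Inv (A : Vec n → Vec n) (N : Vec n →ₗ[ZMod 2] Vec n) (c : Vec n) : Prop where
  eq : ∀ x, A x + x = N x + c
  nn : ∀ x, N (N x) = 0
  nc : N c = 0

theorem Inv.rank_le {A : Vec n → Vec n} {N : Vec n →ₗ[ZMod 2] Vec n} {c : Vec n}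
    (h : Inv A N c) : LinearMap.range N ≤ LinearMap.ker N := by
  rintro _ ⟨x, rfl⟩
  exact h.nn x

theorem Inv.rank_lt {A : Vec n → Vec n} {N : Vec n →ₗ[ZMod 2] Vec n} {c : Vec n}
    (h : Inv A N c) (hc : ∀ x, A x ≠ x) :
    Module.finrank (ZMod 2) (LinearMap.range N) < Module.finrank (ZMod 2) (LinearMap.ker N) := by
  refine Submodule.finrank_lt_finrank_of_lt (lt_of_le_of_ne h.rank_le ?_)
  intro he
  have h1 : c ∈ LinearMap.range N := by
    rw [he]
    exact h.nc
  obtain ⟨x, hx⟩ := h1
  apply hc x
  have h2 := h.eq x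
  rw [hx, add_self] at h2
  have h3 := congrArg (fun z => z + x) h2
  simp only [add_assoc, add_self, add_zero, zero_add] at h3
  exact h3

/-- the key step -/
theorem key {F : Vec n → Vec n} (hF : IsAPN F) {A B : Vec n → Vec n}
    {N N' : Vec n →ₗ[ZMod 2] Vec n} {c c' : Vec n} (hA : Inv A N c) (hB : Inv B N' c')
    (hc : ∀ x, F (A x) = B (F x)) {x₀ : Vec n} (hx₀ : A x₀ ≠ x₀) (S : Finset (Vec n))
    (hS : ∀ y, N' (F y) + c' ∈ S ∨ A y = y) :
    2 ^ Module.finrank (ZMod 2) (LinearMap.ker N) ≤ 2 * S.card := by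
  classical
  have ha : A x₀ + x₀ ≠ 0 := by
    intro h
    apply hx₀
    have h3 := congrArg (fun z => z + x₀) h
    simp only [add_assoc, add_self, add_zero, zero_add] at h3
    exact h3
  rw [← card_fibre N x₀ (N x₀) rfl]
  refine card_le_two_mul hF ha _ S ?_
  intro x hx
  rw [Finset.mem_filter] at hx
  have h1 : A x + x = A x₀ + x₀ := by
    rw [hA.eq, hA.eq, hx.2]
  have h2 : x + (A x₀ + x₀) = A x := by
    rw [← h1, add_comm (A x) x, ← add_assoc, add_self, zero_add]
  rw [h2, hc, hB.eq]
  rcases hS x with h | h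
  · exact h
  · exfalso
    apply ha
    rw [← h1, h, add_self]

end Pool.Agent.H42.APN
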