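import Pool.Agent.H42.APN.Core

/-! # Affine symmetries of APN permutations: main steps -/

namespace Pool.Agent.H42.APN

variable {n : ℕ}

open Module

theorem eq_of_add_eq_zero {x y : Vec n} (h : x + y = 0) : x = y := by
  have h3 := congrArg (fun z => z + y) h
  simp only [add_assoc, add_self, add_zero, zero_add] at h3
  exact h3

/-- affine part: `A x + x = N x + c` -/
structure Lin (A : Vec n → Vec n) (N : Vec n →ₗ[ZMod 2] Vec n) (c : Vec n) : Prop where
  eq : ∀ x, A x + x = N x + c

theorem Lin.fix_iff {A : Vec n → Vec n} {N : Vec n →ₗ[ZMod 2] Vec n} {c : Vec n}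
    (h : Lin A N c) (x : Vec n) : A x = x ↔ N x = c := by
  constructor
  · intro hx
    have h1 := h.eq x
    rw [hx, add_self] at h1
    exact eq_of_add_eq_zero h1.symm
  · intro hx
    have h1 := h.eq x
    rw [hx, add_self] at h1
    exact eq_of_add_eq_zero h1

open Classical in
theorem Lin.card_fix {A : Vec n → Vec n} {N : Vec n →ₗ[ZMod 2] Vec n} {c : Vec n}
    (h : Lin A N c) {p : Vec n} (hp : A p = p) :
    (Finset.univ.filter (fun x : Vec n => A x = x)).card = 2 ^ finrank (ZMod 2) (LinearMap.ker N) := by
  have h1 : (Finset.univ.filter (fun x : Vec n => A x = x)) =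
      (Finset.univ.filter (fun x : Vec n => N x = c)) := by
    ext x
    simp only [Finset.mem_filter, Finset.mem_univ, true_and]
    exact h.fix_iff x
  rw [h1]
  exact card_fibre N p c ((h.fix_iff p).1 hp)

/-- values of the displacement of `B` -/
noncomputable def valS (N' : Vec n →ₗ[ZMod 2] Vec n) (c' : Vec n) : Finset (Vec n) :=
  open Classical in
  Finset.univ.filter (fun y : Vec n => (∃ x, N' x + c' = y) ∧ y ≠ 0)

theorem card_valS_le (N' : Vec n →ₗ[ZMod 2] Vec n) (c' : Vec n) :
    (valS N' c').card ≤ 2 ^ finrank (ZMod 2) (LinearMap.range N') := by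
  classical
  rw [← card_range N' c']
  refine Finset.card_le_card ?_
  intro y hy
  unfold valS at hy
  rw [Finset.mem_filter] at hy ⊢
  exact ⟨hy.1, hy.2.1⟩

theorem card_valS_lt {N' : Vec n →ₗ[ZMod 2] Vec n} {c' q : Vec n} (hq : N' q = c') :
    (valS N' c').card < 2 ^ finrank (ZMod 2) (LinearMap.range N') := by
  classical
  rw [← card_range N' c']
  refine Finset.card_lt_card ?_
  rw [Finset.ssubset_iff_of_subset]
  · refine ⟨0, ?_, ?_⟩
    · rw [Finset.mem_filter]
      exact ⟨Finset.mem_univ _, q, by rw [hq, add_self]⟩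
    · unfold valS
      simp
  · intro y hy
    unfold valS at hy
    rw [Finset.mem_filter] at hy ⊢
    exact ⟨hy.1, hy.2.1⟩

variable {F : Vec n → Vec n} {A B : Vec n → Vec n} {N N' : Vec n →ₗ[ZMod 2] Vec n}
  {c c' : Vec n}

theorem mem_valS (hinj : Function.Injective F) (hB : Lin B N' c')
    (hc : ∀ x, F (A x) = B (F x)) (y : Vec n) : N' (F y) + c' ∈ valS N' c' ∨ A y = y := by
  classical
  by_cases h : A y = y
  · exact Or.inr h
  · left
    unfold valS
    rw [Finset.mem_filter]
    refine ⟨Finset.mem_univ _, ⟨_, rfl⟩, ?_⟩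
    rw [← hB.eq, ← hc]
    intro h0
    exact h (hinj (eq_of_add_eq_zero h0))

theorem finrank_sum (N : Vec n →ₗ[ZMod 2] Vec n) :
    finrank (ZMod 2) (LinearMap.range N) + finrank (ZMod 2) (LinearMap.ker N) = n := by
  have := LinearMap.finrank_range_add_finrank_ker N
  rw [this]
  simp

/-- fixed points correspond -/
theorem finrank_ker_eq (hbij : Function.Bijective F) (hA : Lin A N c) (hB : Lin B N' c')
    (hc : ∀ x, F (A x) = B (F x)) {p : Vec n} (hp : A p = p) :
    finrank (ZMod 2) (LinearMap.ker N) = finrank (ZMod 2) (LinearMap.ker N') := by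
  classical
  have hq : B (F p) = F p := by rw [← hc, hp]
  have h1 := hA.card_fix hp
  have h2 := hB.card_fix hq
  have h3 : (Finset.univ.filter (fun x : Vec n => A x = x)).card =
      (Finset.univ.filter (fun x : Vec n => B x = x)).card := by
    refine Finset.card_bij (fun x _ => F x) ?_ ?_ ?_
    · intro x hx
      rw [Finset.mem_filter] at hx ⊢
      exact ⟨Finset.mem_univ _, by rw [← hc, hx.2]⟩
    · intro x _ y _ h
      exact hbij.1 h
    · intro y hy
      rw [Finset.mem_filter] at hy
      obtain ⟨x, rfl⟩ := hbij.2 y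
      refine ⟨x, ?_, rfl⟩
      rw [Finset.mem_filter]
      refine ⟨Finset.mem_univ _, ?_⟩
      apply hbij.1
      rw [hc, hy.2]
  rw [h1, h2] at h3
  exact Nat.pow_right_injective le_rfl h3

/-- an involution with a fixed point is impossible -/
theorem no_inv_fixed (hF : IsAPN F) (hbij : Function.Bijective F) (hA : Inv A N c)
    (hB : Inv B N' c') (hc : ∀ x, F (A x) = B (F x)) {x₀ : Vec n} (hx₀ : A x₀ ≠ x₀)
    {p : Vec n} (hp : A p = p) : False := by
  classical
  have hA' : Lin A N c := ⟨hA.eq⟩
  have hB' : Lin B N' c' := ⟨hB.eq⟩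
  have hq : B (F p) = F p := by rw [← hc, hp]
  have hq' : N' (F p) = c' := (hB'.fix_iff _).1 hq
  have hk := finrank_ker_eq hbij hA' hB' hc hp
  have hs := finrank_sum N
  have hs' := finrank_sum N'
  have h1 := key hF hA hB hc hx₀ (valS N' c') (mem_valS hbij.1 hB' hc)
  have h2 := card_valS_lt hq'
  have h3 : 2 ^ finrank (ZMod 2) (LinearMap.ker N) <
      2 ^ (finrank (ZMod 2) (LinearMap.range N') + 1) := by
    rw [pow_succ]
    omega
  have h4 := (Nat.pow_lt_pow_iff_right (le_refl 2)).1 h3
  have h5 := Submodule.finrank_mono hB.rank_le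
  have h6 : LinearMap.range N' = LinearMap.ker N' :=
    Submodule.eq_of_le_of_finrank_le hB.rank_le (by omega)
  -- second step
  have ha : A x₀ + x₀ ≠ 0 := fun h => hx₀ (eq_of_add_eq_zero h)
  have haN : N (A x₀ + x₀) = 0 := by
    rw [hA.eq, map_add, hA.nn, hA.nc, add_zero]
  have hT := card_le_two_mul hF ha
    ((Finset.univ.filter (fun x : Vec n => N x = N x₀)) ∪
      (Finset.univ.filter (fun x : Vec n => A x = x))) (valS N' c') ?_
  · have hdisj : Disjoint (Finset.univ.filter (fun x : Vec n => N x = N x₀))
        (Finset.univ.filter (fun x : Vec n => A x = x)) := by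
      rw [Finset.disjoint_left]
      intro x hx1 hx2
      rw [Finset.mem_filter] at hx1 hx2
      apply ha
      have h7 := hA.eq x
      rw [hx1.2, ← hA.eq x₀, hx2.2, add_self] at h7
      exact h7.symm
    rw [Finset.card_union_of_disjoint hdisj, card_fibre N x₀ _ rfl, hA'.card_fix hp] at hT
    have h8 : finrank (ZMod 2) (LinearMap.ker N) = finrank (ZMod 2) (LinearMap.range N') := by
      rw [h6, hk]
    rw [h8] at hT
    omega
  · intro x hx
    rw [Finset.mem_union, Finset.mem_filter, Finset.mem_filter] at hx
    rcases hx with hx | hx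
    · have h9 : A x + x = A x₀ + x₀ := by rw [hA.eq, hA.eq, hx.2]
      have h10 : x + (A x₀ + x₀) = A x := by
        rw [← h9, add_comm (A x) x, ← add_assoc, add_self, zero_add]
      rw [h10, hc, hB.eq]
      rcases mem_valS hbij.1 hB' hc x with h | h
      · exact h
      · exfalso
        apply ha
        rw [← h9, h, add_self]
    · have h11 : A (x + (A x₀ + x₀)) = x + (A x₀ + x₀) := by
        rw [hA'.fix_iff, map_add, haN, add_zero]
        exact (hA'.fix_iff x).1 hx.2
      have h12 : N' (F (x + (A x₀ + x₀))) = c' := by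
        rw [← hB'.fix_iff, ← hc, h11]
      have h13 : N' (F x) = c' := by
        rw [← hB'.fix_iff, ← hc, hx.2]
      unfold valS
      rw [Finset.mem_filter]
      refine ⟨Finset.mem_univ _, ?_, ?_⟩
      · have h14 : F (x + (A x₀ + x₀)) + F x + c' ∈ LinearMap.range N' := by
          rw [h6, LinearMap.mem_ker, map_add, map_add, h12, h13, add_self, zero_add, hB.nc]
        obtain ⟨z, hz⟩ := h14
        refine ⟨z, ?_⟩
        rw [hz, add_assoc, add_self, add_zero]
      · intro h0
        have h15 := hbij.1 (eq_of_add_eq_zero h0)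
        apply ha
        have h16 := congrArg (fun z => x + z) h15
        simp only [← add_assoc, add_self, zero_add] at h16
        rw [h16]

/-- an involution without fixed points is impossible in even dimension -/
theorem no_inv_free (hn : Even n) (hF : IsAPN F) (hbij : Function.Bijective F) (hA : Inv A N c)
    (hB : Inv B N' c') (hc : ∀ x, F (A x) = B (F x)) (hfree : ∀ x, A x ≠ x) : False := by
  classical
  have hB' : Lin B N' c' := ⟨hB.eq⟩
  have hfree' : ∀ y, B y ≠ y := by
    intro y hy
    obtain ⟨x, rfl⟩ := hbij.2 y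
    rw [← hc] at hy
    exact hfree x (hbij.1 hy)
  have h1 := key hF hA hB hc (hfree 0) (valS N' c') (mem_valS hbij.1 hB' hc)
  have h2 := card_valS_le N' c'
  have h3 : 2 ^ finrank (ZMod 2) (LinearMap.ker N) ≤
      2 ^ (finrank (ZMod 2) (LinearMap.range N') + 1) := by
    rw [pow_succ]
    omega
  have h4 := (Nat.pow_le_pow_iff_right (le_refl 2)).1 h3
  have h5 := hA.rank_lt hfree
  have h6 := hB.rank_lt hfree'
  have hs := finrank_sum N
  have hs' := finrank_sum N'
  obtain ⟨m, hm⟩ := hn
  omega

/-- a symmetry with a fixed point and nonzero `N²` fixes fewer than `2^(n/2)` points -/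
theorem fix_lt (hF : IsAPN F) (hbij : Function.Bijective F) (hA : Lin A N c)
    (hB : Lin B N' c') (hc : ∀ x, F (A x) = B (F x)) {p z : Vec n} (hp : A p = p)
    (hz : N (N z) ≠ 0) : 2 * finrank (ZMod 2) (LinearMap.ker N) < n := by
  classical
  have hp' : N p = c := (hA.fix_iff p).1 hp
  have hq : B (F p) = F p := by rw [← hc, hp]
  have hq' : N' (F p) = c' := (hB.fix_iff _).1 hq
  have hk := finrank_ker_eq hbij hA hB hc hp
  have hs := finrank_sum N
  have hs' := finrank_sum N'
  have h2 := card_valS_lt hq'
  have hNz : N z ≠ 0 := by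
    intro h
    apply hz
    rw [h, map_zero]
  -- the set `X = {x : N x = N (z + p)}`, `a = N z`
  have hcard : (Finset.univ.filter (fun x : Vec n => N x = N (z + p))).card ≤
      (valS N' c').card := by
    refine Finset.card_le_card_of_injOn (fun x => F (x + N z) + F x) ?_ ?_
    · intro x hx
      simp only [Finset.coe_filter, Finset.mem_univ, true_and, Set.mem_ofPred_eq] at hx
      have h9 : A x + x = N z := by
        rw [hA.eq, hx, map_add, hp', add_assoc, add_self, add_zero]
      have h10 : x + N z = A x := by
        rw [← h9, add_comm (A x) x, ← add_assoc, add_self, zero_add]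
      simp only [Finset.mem_coe]
      rw [h10, hc, hB.eq]
      rcases mem_valS hbij.1 hB hc x with h | h
      · exact h
      · exfalso
        apply hNz
        rw [← h9, h, add_self]
    · intro x hx y hy hxy
      simp only [Finset.coe_filter, Finset.mem_univ, true_and, Set.mem_ofPred_eq] at hx hy
      by_contra hne
      have h11 := hF (N z) (F (x + N z) + F x) hNz
      have h12 : x ≠ x + N z := by
        intro h
        apply hNz
        have h16 := congrArg (fun w => x + w) h
        simp only [← add_assoc, add_self, zero_add] at h16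
        exact h16.symm
      have h13 : y ≠ x + N z := by
        intro h
        apply hz
        have h16 := congrArg N h
        rw [map_add, hx, hy] at h16
        have h17 := congrArg (fun w => N (z + p) + w) h16
        simp only [← add_assoc, add_self, zero_add] at h17
        exact h17.symm
      have h14 : ({x, y, x + N z} : Finset (Vec n)) ⊆ Finset.univ.filter
          (fun w : Vec n => F (w + N z) - F w = F (x + N z) + F x) := by
        intro w hw
        rw [Finset.mem_filter]
        refine ⟨Finset.mem_univ _, ?_⟩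
        rw [sub_eq]
        simp only [Finset.mem_insert, Finset.mem_singleton] at hw
        rcases hw with rfl | rfl | rfl
        · rfl
        · exact hxy.symm
        · rw [add_assoc, add_self, add_zero, add_comm]
      have h15 := Finset.card_le_card h14
      have h16 : ({x, y, x + N z} : Finset (Vec n)).card = 3 := by
        rw [Finset.card_eq_three]
        exact ⟨x, y, x + N z, hne, h12, h13, rfl⟩
      omega
  rw [card_fibre N (z + p) _ rfl] at hcard
  have h3 := lt_of_le_of_lt hcard h2
  have h4 := (Nat.pow_lt_pow_iff_right (le_refl 2)).1 h3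
  omega

end Pool.Agent.H42.APN
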