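import Pool.Agent.H42.APN.Main

/-! # Affine symmetries of APN permutations: packaging -/

namespace Pool.Agent.H42.APN

variable {n : ℕ}

open Module

/-- affine permutations of `F_2^n` -/
abbrev Aff (n : ℕ) : Type := Vec n ≃ᵃ[ZMod 2] Vec n

/-- displacement part of an affine permutation -/
noncomputable def dN (A : Aff n) : Vec n →ₗ[ZMod 2] Vec n :=
  (A.linear : Vec n →ₗ[ZMod 2] Vec n) + LinearMap.id

theorem aff_apply (A : Aff n) (x : Vec n) : A x = A.linear x + A 0 := by
  have h := A.map_vadd 0 x
  simpa using h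

theorem dN_apply (A : Aff n) (x : Vec n) : dN A x = A.linear x + x := rfl

theorem lin_aff (A : Aff n) : Lin (fun x => A x) (dN A) (A 0) := by
  refine ⟨fun x => ?_⟩
  show A x + x = dN A x + A 0
  rw [aff_apply A x, dN_apply]
  abel

theorem linear_linear (A : Aff n) (h : A * A = 1) (x : Vec n) :
    A.linear (A.linear x) = x ∧ A.linear (A 0) = A 0 := by
  have h1 : ∀ y, A (A y) = y := by
    intro y
    have h2 := congrArg (fun E : Aff n => E y) h
    simpa using h2
  have h3 : A.linear (A 0) + A 0 = 0 := by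
    rw [← aff_apply, h1]
  have h4 : A.linear (A 0) = A 0 := eq_of_add_eq_zero h3
  refine ⟨?_, h4⟩
  have h5 := h1 x
  rw [aff_apply A (A x), aff_apply A x, map_add, h4, add_assoc, add_self, add_zero] at h5
  exact h5

theorem inv_aff (A : Aff n) (h : A * A = 1) : Inv (fun x => A x) (dN A) (A 0) where
  eq := (lin_aff A).eq
  nn := by
    intro x
    rw [dN_apply, dN_apply, map_add, (linear_linear A h x).1]
    rw [add_comm (A.linear x) x, add_self]
  nc := by
    rw [dN_apply, (linear_linear A h 0).2, add_self]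

theorem sq_eq_one (A : Aff n) {p : Vec n} (hp : A p = p) (h : ∀ z, dN A (dN A z) = 0) :
    A * A = 1 := by
  ext1 x
  show A (A x) = x
  have hl : ∀ z, A.linear (A.linear z) = z := by
    intro z
    have h1 := h z
    rw [dN_apply, dN_apply, map_add] at h1
    have h2 : A.linear (A.linear z) + z = 0 := by
      rw [← h1]
      have h3 := add_self (A.linear z)
      calc A.linear (A.linear z) + z = A.linear (A.linear z) + z + 0 := by rw [add_zero]
        _ = A.linear (A.linear z) + z + (A.linear z + A.linear z) := by rw [h3]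
        _ = A.linear (A.linear z) + A.linear z + (A.linear z + z) := by abel
    exact eq_of_add_eq_zero h2
  -- `A y = A.linear (y - p) + p`
  have h4 : ∀ y, A y = A.linear (y + p) + p := by
    intro y
    rw [aff_apply A y, map_add]
    have h5 := aff_apply A p
    rw [hp] at h5
    calc A.linear y + A 0 = A.linear y + A 0 + (A.linear p + A.linear p) := by
            rw [add_self, add_zero]
      _ = A.linear y + A.linear p + (A.linear p + A 0) := by abel
      _ = A.linear y + A.linear p + p := by rw [← h5]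
  rw [h4 (A x), h4 x, add_assoc, add_self, add_zero, hl, add_assoc, add_self, add_zero]

variable {F : Vec n → Vec n}

/-- the group of affine symmetries -/
def Sym (F : Vec n → Vec n) : Subgroup (Aff n × Aff n) where
  carrier := {p | ∀ x, F (p.1 x) = p.2 (F x)}
  mul_mem' := by
    intro a b ha hb x
    show F (a.1 (b.1 x)) = a.2 (b.2 (F x))
    rw [ha, hb]
  one_mem' := by
    intro x
    rfl
  inv_mem' := by
    intro a ha x
    show F (a.1⁻¹ x) = a.2⁻¹ (F x)
    have h := ha (a.1⁻¹ x)
    have h1 : a.1 (a.1⁻¹ x) = x := a.1.apply_symm_apply x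
    rw [h1] at h
    rw [h]
    have h2 : ∀ y, a.2⁻¹ (a.2 y) = y := fun y => a.2.symm_apply_apply y
    rw [h2]

instance : Finite (Aff n) := by
  refine Finite.of_injective (fun A : Aff n => (fun x => A x : Vec n → Vec n)) ?_
  intro A B h
  ext1 x
  exact congrFun h x

theorem no_two (hn : Even n) (hF : IsAPN F) (hbij : Function.Bijective F) (A B : Aff n)
    (hc : ∀ x, F (A x) = B (F x)) (hA : A * A = 1) (hB : B * B = 1) (hne : A ≠ 1) : False := by
  have hx₀ : ∃ x₀, A x₀ ≠ x₀ := by
    by_contra h
    push Not at h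
    apply hne
    ext1 x
    exact h x
  obtain ⟨x₀, hx₀⟩ := hx₀
  by_cases hp : ∃ p, A p = p
  · obtain ⟨p, hp⟩ := hp
    exact no_inv_fixed hF hbij (inv_aff A hA) (inv_aff B hB) hc hx₀ hp
  · push Not at hp
    exact no_inv_free hn hF hbij (inv_aff A hA) (inv_aff B hB) hc hp

theorem snd_eq_one (hbij : Function.Bijective F) (A B : Aff n)
    (hc : ∀ x, F (A x) = B (F x)) (hA : A = 1) : B = 1 := by
  ext1 y
  obtain ⟨x, rfl⟩ := hbij.2 y
  rw [← hc, hA]
  rfl

theorem odd_card (hn : Even n) (hF : IsAPN F) (hbij : Function.Bijective F) :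
    Odd (Nat.card (Sym F)) := by
  rw [← Nat.not_even_iff_odd]
  intro h
  have h2 : 2 ∣ Nat.card (Sym F) := h.two_dvd
  haveI : Fact (Nat.Prime 2) := ⟨Nat.prime_two⟩
  haveI : Finite (Aff n × Aff n) := inferInstance
  haveI : Finite (Sym F) := inferInstance
  obtain ⟨g, hg⟩ := exists_prime_orderOf_dvd_card' (G := Sym F) 2 h2
  have hg2 : g * g = 1 := by
    have h5 := pow_orderOf_eq_one g
    rw [hg, sq] at h5
    exact h5
  have hne : g ≠ 1 := by
    rintro rfl
    rw [orderOf_one] at hg
    omega
  have h3 : (g : Aff n × Aff n) * g = 1 := by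
    rw [← Subgroup.coe_mul, hg2, Subgroup.coe_one]
  have hA : (g : Aff n × Aff n).1 * (g : Aff n × Aff n).1 = 1 := congrArg Prod.fst h3
  have hB : (g : Aff n × Aff n).2 * (g : Aff n × Aff n).2 = 1 := congrArg Prod.snd h3
  have hc : ∀ x, F ((g : Aff n × Aff n).1 x) = (g : Aff n × Aff n).2 (F x) := g.2
  refine no_two hn hF hbij _ _ hc hA hB ?_
  intro h1
  apply hne
  apply Subtype.ext
  apply Prod.ext
  · exact h1
  · exact snd_eq_one hbij _ _ hc h1

theorem few_fixed (hF : IsAPN F) (hbij : Function.Bijective F) (A B : Aff n)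
    (hc : ∀ x, F (A x) = B (F x)) (hne : A ≠ 1) :
    (Nat.card {x : Vec n // A x = x}) ^ 2 < 2 ^ n := by
  classical
  by_cases hp : ∃ p, A p = p
  · obtain ⟨p, hp⟩ := hp
    have h1 : Nat.card {x : Vec n // A x = x} = 2 ^ finrank (ZMod 2) (LinearMap.ker (dN A)) := by
      rw [Nat.card_eq_fintype_card, Fintype.card_subtype, ← (lin_aff A).card_fix hp]
    rw [h1, ← pow_mul]
    refine Nat.pow_lt_pow_right (by norm_num) ?_
    rw [mul_comm]
    by_cases hz : ∃ z, dN A (dN A z) ≠ 0
    · obtain ⟨z, hz⟩ := hz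
      exact fix_lt hF hbij (lin_aff A) (lin_aff B) hc hp hz
    · exfalso
      push Not at hz
      have hA := sq_eq_one A hp hz
      have hB : B * B = 1 := by
        refine snd_eq_one hbij (A * A) (B * B) ?_ hA
        intro x
        show F (A (A x)) = B (B (F x))
        rw [hc, hc]
      have hx₀ : ∃ x₀, A x₀ ≠ x₀ := by
        by_contra h
        push Not at h
        apply hne
        ext1 x
        exact h x
      obtain ⟨x₀, hx₀⟩ := hx₀
      exact no_inv_fixed hF hbij (inv_aff A hA) (inv_aff B hB) hc hx₀ hp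
  · push Not at hp
    haveI : IsEmpty {x : Vec n // A x = x} := ⟨fun x => hp x.1 x.2⟩
    rw [Nat.card_of_isEmpty]
    positivity

end Pool.Agent.H42.APN
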